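import Pool.Agent.BES.Stmts

namespace Pool.Agent.BES.H97

open Set Filter Topology MeasureTheory
open scoped InnerProductSpace ENNReal
open Pool.Agent.BE01

noncomputable section

/-- The complex coordinate. -/
def zt : En 2 ≃ₗᵢ[ℝ] ℂ := Complex.orthonormalBasisOneI.repr.symm

theorem zt_apply (x : En 2) : zt x = x 0 + x 1 * Complex.I := by
  unfold zt
  rw [Complex.orthonormalBasisOneI_repr_symm_apply]

theorem zt_re (x : En 2) : (zt x).re = x 0 := by
  rw [zt_apply]
  simp

theorem zt_im (x : En 2) : (zt x).im = x 1 := by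
  rw [zt_apply]
  simp

theorem norm_zt (x : En 2) : ‖zt x‖ = ‖x‖ := zt.norm_map x

theorem slt_open : IsOpen Slt := by
  unfold Slt
  apply isOpen_lt continuous_norm.neg
  exact (EuclideanSpace.proj (0 : Fin 2) : En 2 →L[ℝ] ℝ).continuous

theorem zt_slit {x : En 2} (hx : x ∈ Slt) : zt x ∈ Complex.slitPlane := by
  rw [Complex.mem_slitPlane_iff, zt_re, zt_im]
  have hx' : - ‖x‖ < x 0 := hx
  by_contra hcon
  push Not at hcon
  obtain ⟨h0, h1⟩ := hcon
  have h2 : ‖x‖ = |x 0| := by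
    rw [EuclideanSpace.norm_eq, Fin.sum_univ_two, h1]
    simp only [Real.norm_eq_abs, sq_abs, abs_zero, ne_eq, OfNat.ofNat_ne_zero, not_false_eq_true,
      zero_pow, add_zero]
    exact Real.sqrt_sq_eq_abs _
  rw [h2, abs_of_nonpos h0] at hx'
  linarith

theorem hf_eq (μ : ℝ) {x : En 2} (hx : x ∈ Slt) : Hf μ x = ((zt x) ^ (μ : ℂ)).re := by
  have h0 := zt_slit hx
  have h1 : zt x ≠ 0 := Complex.slitPlane_ne_zero h0
  rw [Complex.cpow_ofReal_re, norm_zt]
  unfold Hf
  congr 1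
  have h2 : Real.arccos (x 0 / ‖x‖) = |(zt x).arg| := by
    rw [← zt_re, ← norm_zt, ← Complex.cos_arg h1, ← Real.cos_abs]
    exact Real.arccos_cos (abs_nonneg _) (Complex.abs_arg_le_pi _)
  rw [h2]
  rcases abs_choice (zt x).arg with h3 | h3
  · rw [h3, mul_comm]
  · rw [h3, mul_neg, Real.cos_neg, mul_comm]

/-- The functions `Re (ζ z^c)`. -/
def GG (ζ c : ℂ) (y : En 2) : ℝ := (ζ * (zt y) ^ c).re

theorem gg_fd (ζ c : ℂ) {x : En 2} (hx : x ∈ Slt) : ∃ L : En 2 →L[ℝ] ℝ,
    HasFDerivAt (GG ζ c) L x ∧ ∀ v, L v = (ζ * (c * (zt x) ^ (c - 1)) * zt v).re := by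
  have h0 := zt_slit hx
  have h1 : HasDerivAt (fun z : ℂ => ζ * z ^ c) (ζ * (c * (zt x) ^ (c - 1))) (zt x) :=
    (Complex.hasStrictDerivAt_cpow_const h0).hasDerivAt.const_mul ζ
  have h2 := (h1.hasFDerivAt.restrictScalars ℝ)
  have h3 : HasFDerivAt (fun y : En 2 => zt y) (zt.toContinuousLinearEquiv : En 2 →L[ℝ] ℂ) x :=
    (zt.toContinuousLinearEquiv : En 2 →L[ℝ] ℂ).hasFDerivAt
  have h4 := h2.comp x h3
  have h5 := Complex.reCLM.hasFDerivAt.comp x h4
  refine ⟨_, h5, fun v => ?_⟩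
  simp only [ContinuousLinearMap.comp_apply, Complex.reCLM_apply]
  congr 1
  simp [mul_comm]

theorem gg_cont (ζ c : ℂ) {x : En 2} (hx : x ∈ Slt) : ContinuousAt (GG ζ c) x := by
  obtain ⟨L, hL, _⟩ := gg_fd ζ c hx
  exact hL.continuousAt

theorem gg_fderiv (ζ c : ℂ) {x : En 2} (hx : x ∈ Slt) (v : En 2) :
    fderiv ℝ (GG ζ c) x v = GG (ζ * c * zt v) (c - 1) x := by
  obtain ⟨L, hL, h⟩ := gg_fd ζ c hx
  rw [hL.fderiv, h v]
  unfold GG
  congr 1
  ring

theorem hf_fderiv (μ : ℝ) {x : En 2} (hx : x ∈ Slt) (v : En 2) :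
    fderiv ℝ (Hf μ) x v = GG (μ * zt v) (μ - 1) x := by
  have h1 : Hf μ =ᶠ[𝓝 x] GG 1 μ := by
    filter_upwards [slt_open.mem_nhds hx] with y hy
    rw [hf_eq μ hy]
    unfold GG
    rw [one_mul]
  rw [h1.fderiv_eq, gg_fderiv 1 μ hx v, one_mul]

/-- HWK -/
theorem hwk : HwkStmt := by
  intro μ Ω ψ hΩ hsub hψ
  obtain ⟨hψs, hψc, hψt⟩ := hψ
  have hts : tsupport ψ ⊆ Slt := hψt.trans hsub
  set e := EuclideanSpace.basisFun (Fin 2) ℝ with he
  set W : Fin 2 → En 2 → ℝ := fun i => GG (μ * zt (e i)) (μ - 1) with hW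
  set V : Fin 2 → En 2 → ℝ := fun i =>
    GG (μ * zt (e i) * (μ - 1) * zt (e i)) (μ - 1 - 1) with hV
  have hψd : Differentiable ℝ ψ := hψs.differentiable (by simp)
  have hψf : Continuous (fderiv ℝ ψ) := hψs.continuous_fderiv (by simp)
  have hcf : HasCompactSupport (fderiv ℝ ψ) := hψc.fderiv (𝕜 := ℝ)
  have hfs : tsupport (fderiv ℝ ψ) ⊆ tsupport ψ := tsupport_fderiv_subset ℝ
  have hz : ∀ x, x ∉ tsupport ψ → fderiv ℝ ψ x = 0 := by
    intro x hx
    exact image_eq_zero_of_notMem_tsupport (fun h => hx (hfs h))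
  -- continuity of products
  have hcm : ∀ (ρ F : En 2 → ℝ), Continuous ρ → tsupport ρ ⊆ tsupport ψ →
      (∀ x ∈ Slt, ContinuousAt F x) → Continuous (fun x => ρ x * F x) := by
    intro ρ F hρ hρs hF
    apply continuous_of_tsupport
    intro x hx
    have h1 : x ∈ tsupport ρ := by
      have h2 : tsupport (fun x => ρ x * F x) ⊆ tsupport ρ := tsupport_mul_subset_left
      exact h2 hx
    exact hρ.continuousAt.mul (hF x (hts (hρs h1)))
  have hdi : ∀ i, Continuous (fun x => fderiv ℝ ψ x (e i)) := fun i =>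
    hψf.clm_apply continuous_const
  have hdc : ∀ i, HasCompactSupport (fun x => fderiv ℝ ψ x (e i)) := fun i =>
    hcf.comp_left (g := fun L : En 2 →L[ℝ] ℝ => L (e i)) (by simp)
  have hds : ∀ i, tsupport (fun x => fderiv ℝ ψ x (e i)) ⊆ tsupport ψ := by
    intro i
    apply closure_minimal _ (isClosed_tsupport ψ)
    intro x hx
    by_contra hcon
    apply hx
    show fderiv ℝ ψ x (e i) = 0
    rw [hz x hcon]
    rfl
  have i1 : ∀ i, Integrable (fun x => fderiv ℝ ψ x (e i) * W i x) := by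
    intro i
    apply Continuous.integrable_of_hasCompactSupport
    · exact hcm _ _ (hdi i) (hds i) (fun x hx => gg_cont _ _ hx)
    · exact (hdc i).mul_right
  have i2 : ∀ i, Integrable (fun x => ψ x * fderiv ℝ (W i) x (e i)) := by
    intro i
    have h1 : (fun x => ψ x * fderiv ℝ (W i) x (e i)) = fun x => ψ x * V i x := by
      funext x
      by_cases hx : x ∈ tsupport ψ
      · congr 1
        exact gg_fderiv _ _ (hts hx) (e i)
      · rw [image_eq_zero_of_notMem_tsupport hx, zero_mul, zero_mul]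
    rw [h1]
    apply Continuous.integrable_of_hasCompactSupport
    · exact hcm _ _ hψs.continuous Subset.rfl (fun x hx => gg_cont _ _ hx)
    · exact hψc.mul_right
  have i3 : ∀ i, Integrable (fun x => ψ x * W i x) := by
    intro i
    apply Continuous.integrable_of_hasCompactSupport
    · exact hcm _ _ hψs.continuous Subset.rfl (fun x hx => gg_cont _ _ hx)
    · exact hψc.mul_right
  have h4 : ∀ x, ⟪gradient ψ x, gradient (Hf μ) x⟫_ℝ = ∑ i : Fin 2, fderiv ℝ ψ x (e i) * W i x := by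
    intro x
    by_cases hx : x ∈ tsupport ψ
    · rw [← e.sum_inner_mul_inner]
      refine Finset.sum_congr rfl fun i _ => ?_
      have h8 : ⟪gradient ψ x, e i⟫_ℝ = fderiv ℝ ψ x (e i) := by
        unfold gradient
        rw [InnerProductSpace.toDual_symm_apply]
      have h9 : ⟪e i, gradient (Hf μ) x⟫_ℝ = fderiv ℝ (Hf μ) x (e i) := by
        rw [real_inner_comm]
        unfold gradient
        rw [InnerProductSpace.toDual_symm_apply]
      rw [h8, h9, hf_fderiv μ (hts hx) (e i)]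
    · have h8 : gradient ψ x = 0 := by
        unfold gradient
        rw [hz x hx, map_zero]
      rw [h8, inner_zero_left, hz x hx]
      simp
  have h5 : ∫ x, ⟪gradient ψ x, gradient (Hf μ) x⟫_ℝ ∂(mu Ω) =
      ∫ x, ⟪gradient ψ x, gradient (Hf μ) x⟫_ℝ := by
    unfold mu
    apply setIntegral_eq_integral_of_forall_compl_eq_zero
    intro x hx
    have h8 : gradient ψ x = 0 := by
      unfold gradient
      rw [hz x (fun h => hx (hψt h)), map_zero]
    rw [h8, inner_zero_left]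
  rw [h5]
  simp_rw [h4]
  rw [integral_finsetSum _ (fun i _ => i1 i)]
  have h6 : ∀ i : Fin 2, ∫ x, fderiv ℝ ψ x (e i) * W i x = - ∫ x, ψ x * V i x := by
    intro i
    have h7 := integral_mul_fderiv_eq_neg_fderiv_mul_of_integrable (i1 i) (i2 i) (i3 i)
      (fun z _ => hψd z) (fun z hz => by
        obtain ⟨L, hL, _⟩ := gg_fd (μ * zt (e i)) (μ - 1) (hts hz)
        exact hL.differentiableAt)
    have h8 : ∫ x, ψ x * V i x = ∫ x, ψ x * fderiv ℝ (W i) x (e i) := by
      congr 1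
      funext x
      by_cases hx : x ∈ tsupport ψ
      · congr 1
        exact (gg_fderiv _ _ (hts hx) (e i)).symm
      · rw [image_eq_zero_of_notMem_tsupport hx, zero_mul, zero_mul]
    rw [h8, h7, neg_neg]
  rw [Fin.sum_univ_two, h6, h6, ← neg_add, neg_eq_zero]
  have i4 : ∀ i, Integrable (fun x => ψ x * V i x) := by
    intro i
    apply Continuous.integrable_of_hasCompactSupport
    · exact hcm _ _ hψs.continuous Subset.rfl (fun x hx => gg_cont _ _ hx)
    · exact hψc.mul_right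
  rw [← integral_add (i4 0) (i4 1)]
  have h10 : ∀ x, ψ x * V 0 x + ψ x * V 1 x = 0 := by
    intro x
    rw [← mul_add]
    have h11 : V 0 x + V 1 x = 0 := by
      simp only [hV]
      unfold GG
      have e0 : zt (e 0) = 1 := by
        rw [zt_apply, he]
        simp
      have e1 : zt (e 1) = Complex.I := by
        rw [zt_apply, he]
        simp
      rw [e0, e1, ← Complex.add_re]
      have h12 : (μ : ℂ) * 1 * (μ - 1) * 1 * zt x ^ ((μ : ℂ) - 1 - 1) +
          μ * Complex.I * (μ - 1) * Complex.I * zt x ^ ((μ : ℂ) - 1 - 1) = 0 := by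
        linear_combination (μ : ℂ) * (μ - 1) * zt x ^ ((μ : ℂ) - 1 - 1) * Complex.I_mul_I
      rw [h12, Complex.zero_re]
    rw [h11, mul_zero]
  simp_rw [h10]
  exact integral_zero _ _

end

end Pool.Agent.BES.H97
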